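import Pool.Agent.Q196.SL.Final

/-! # MP_6ade77_an: Schatten-class Lipschitz estimates for contractions approaching norm one

Q1 (answer: YES).  There is one Lipschitz function `f` on the circle, not in the disk algebra,
such that on every infinite-dimensional Hilbert space and for every `1 < p < ∞` the identity
`T₁ = 1` and suitable contractions `T₀ n` with `‖T₀ n‖ = 1` satisfy
`sup ‖T₁ - T₀ n‖_p < ∞`, `‖T₀ n‖ ↑ 1` and `‖f(T₁) - f(T₀ n)‖_p ↑ ∞` (all these norms are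
finite).  Here `IsValue f T S` says that `S = f(T)`.  -/

namespace Pool.Agent.Results.MP_6ade77_an.NonStrictBlowUp

open Filter Topology
open scoped ENNReal
open Pool.Agent.Q196.SL

universe u

theorem result : ∃ f : Circle → ℂ,
    (∃ C : ℝ, ∀ z w : Circle, ‖f z - f w‖ ≤ C * ‖(z : ℂ) - w‖) ∧ ¬ InDiskAlgebra f ∧
    ∀ (H : Type u) [NormedAddCommGroup H] [InnerProductSpace ℂ H] [CompleteSpace H],
      ¬ FiniteDimensional ℂ H → ∀ p : ℝ, 1 < p →
      ∃ (S₁ : H →L[ℂ] H) (T₀ S₀ : ℕ → H →L[ℂ] H), (∀ n, ‖T₀ n‖ = 1) ∧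
        IsValue f 1 S₁ ∧ (∀ n, IsValue f (T₀ n) (S₀ n)) ∧ BlowUp p 1 S₁ T₀ S₀ := by
  refine ⟨fun z => fz z, ⟨_, fz_lipschitz⟩, fz_notMem, ?_⟩
  intro H _ _ _ hH p hp
  obtain ⟨T₀, S₁, S₀, h1, h2, h3, h4, h5, h6, h7⟩ := construction H hH hp.le
  have h8 : (fun n => ‖T₀ n‖) = fun _ => (1 : ℝ) := funext h1
  refine ⟨S₁, T₀, S₀, h1, h2, h3, ⟨⟨?_, fun n => (h1 n).le⟩, h4, ?_, ?_, h5, h6, h7⟩⟩
  · exact ContinuousLinearMap.norm_id_le
  · rw [h8]
    exact monotone_const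
  · rw [h8]
    exact tendsto_const_nhds

end Pool.Agent.Results.MP_6ade77_an.NonStrictBlowUp
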